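import Pool.Agent.W295.NL.StmD

set_option autoImplicit false

/-!
NL-DM: a Latin square with a ladder cycle of Moebius type has a duplex.
-/

namespace Pool.Agent.W280.NL.DM

open Pool.Agent.W295.NL

variable {Q : Type} {L : Q → Q → Q} {n : ℕ} {X : Fin 3 → ℕ → Q} {κ : ℕ → Fin 3}

/-- The chord condition. -/
def MC (n : ℕ) (X : Fin 3 → ℕ → Q) (κ : ℕ → Fin 3) : Prop := ∀ a t t', X a t = X a t' →
  t' ≡ t [MOD 2 * n] ∨ (a = κ (t + 1) ∧ t' ≡ t + 1 [MOD 2 * n]) ∨
  (a = κ t ∧ t' + 1 ≡ t [MOD 2 * n]) ∨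
  (a ≠ κ t ∧ a ≠ κ (t + 1) ∧ t' ≡ t + n [MOD 2 * n])

theorem eqm {m a b : ℕ} (ha : a < m) (h : a ≡ b [MOD m]) : a = b % m := by
  have h1 : a % m = b % m := h
  rwa [Nat.mod_eq_of_lt ha] at h1

theorem two (hC : Cyc L n X κ) (hn : 0 < n) (hM : MC n X κ) (a : Fin 3) (t : ℕ) :
    ∃ r, ∀ t' < 2 * n, X a t = X a t' → t' = t % (2 * n) ∨ t' = r := by
  by_cases h1 : a = κ (t + 1)
  · refine ⟨(t + 1) % (2 * n), fun t' ht' h => ?_⟩
    have hne : a ≠ κ t := fun h2 => hC.kne t (h2.symm.trans h1)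
    rcases hM a t t' h with h2 | ⟨_, h2⟩ | ⟨h3, h2⟩ | ⟨_, h3, _⟩
    · exact Or.inl (eqm ht' h2)
    · exact Or.inr (eqm ht' h2)
    · exact absurd h3 hne
    · exact absurd h1 h3
  · by_cases h3 : a = κ t
    · refine ⟨(t + (2 * n - 1)) % (2 * n), fun t' ht' h => ?_⟩
      rcases hM a t t' h with h2 | ⟨h4, h2⟩ | ⟨_, h2⟩ | ⟨h4, _, _⟩
      · exact Or.inl (eqm ht' h2)
      · exact absurd h4 h1
      · right
        apply eqm ht'
        apply Nat.ModEq.add_right_cancel' 1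
        have h5 : t + (2 * n - 1) + 1 = t + 2 * n := by omega
        rw [h5]
        exact h2.trans (by simp [Nat.ModEq])
      · exact absurd h3 h4
    · refine ⟨(t + n) % (2 * n), fun t' ht' h => ?_⟩
      rcases hM a t t' h with h2 | ⟨h4, h2⟩ | ⟨h4, h2⟩ | ⟨_, _, h4⟩
      · exact Or.inl (eqm ht' h2)
      · exact absurd h4 h1
      · exact absurd h4 h3
      · exact Or.inr (eqm ht' h4)

theorem cnt [Fintype Q] [DecidableEq Q] (hcard : Fintype.card Q = n) (hC : Cyc L n X κ)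
    (hn : 0 < n) (hM : MC n X κ) (a : Fin 3) (q : Q) :
    ((Finset.range (2 * n)).filter fun t => X a t = q).card = 2 := by
  have hle : ∀ q ∈ (Finset.univ : Finset Q),
      ((Finset.range (2 * n)).filter fun t => X a t = q).card ≤ 2 := by
    intro q _
    by_cases hne : ((Finset.range (2 * n)).filter fun t => X a t = q).Nonempty
    · obtain ⟨t, ht⟩ := hne
      rw [Finset.mem_filter, Finset.mem_range] at ht
      obtain ⟨r, hr⟩ := two hC hn hM a t
      refine (Finset.card_le_card (t := {t, r}) ?_).trans (Finset.card_le_two)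
      intro t' ht'
      rw [Finset.mem_filter, Finset.mem_range] at ht'
      have h1 := hr t' ht'.1 (ht.2.trans ht'.2.symm)
      rw [Nat.mod_eq_of_lt ht.1] at h1
      simpa using h1
    · rw [Finset.not_nonempty_iff_eq_empty.1 hne]
      simp
  have hsum : ∑ q ∈ (Finset.univ : Finset Q),
      ((Finset.range (2 * n)).filter fun t => X a t = q).card =
      ∑ q ∈ (Finset.univ : Finset Q), 2 := by
    rw [← Finset.card_eq_sum_card_fiberwise (fun x _ => Finset.mem_coe.2 (Finset.mem_univ _)),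
      Finset.card_range, Finset.sum_const, Finset.card_univ, hcard, smul_eq_mul]
    ring
  exact (Finset.sum_eq_sum_iff_of_le hle).1 hsum q (Finset.mem_univ _)

theorem inj (hC : Cyc L n X κ) (hn : 2 ≤ n) (hM : MC n X κ) (t t' : ℕ) (ht : t < 2 * n)
    (ht' : t' < 2 * n) (h0 : X 0 t = X 0 t') (h1 : X 1 t = X 1 t') : t = t' := by
  have h2 : X 2 t = X 2 t' := by rw [hC.sym, hC.sym, h0, h1]
  have hall : ∀ a, X a t = X a t' := by
    intro a
    fin_cases a
    · exact h0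
    · exact h1
    · exact h2
  have e1 : t' ≡ t [MOD 2 * n] ∨ t' ≡ t + 1 [MOD 2 * n] := by
    rcases hM (κ (t + 1)) t t' (hall _) with h | ⟨_, h⟩ | ⟨h, _⟩ | ⟨_, h, _⟩
    · exact Or.inl h
    · exact Or.inr h
    · exact absurd h.symm (hC.kne t)
    · exact absurd rfl h
  have e2 : t' ≡ t [MOD 2 * n] ∨ t' + 1 ≡ t [MOD 2 * n] := by
    rcases hM (κ t) t t' (hall _) with h | ⟨h, _⟩ | ⟨_, h⟩ | ⟨h, _, _⟩
    · exact Or.inl h
    · exact absurd h (hC.kne t)
    · exact Or.inr h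
    · exact absurd rfl h
  have e3 : t' ≡ t [MOD 2 * n] → t = t' := by
    intro h
    have h4 := eqm ht' h
    rw [Nat.mod_eq_of_lt ht] at h4
    exact h4.symm
  rcases e1 with h | h
  · exact e3 h
  · rcases e2 with h' | h'
    · exact e3 h'
    · exfalso
      have h5 : t + 2 ≡ t + 0 [MOD 2 * n] := by
        have h6 : t' + 1 ≡ t + 1 + 1 [MOD 2 * n] := h.add_right 1
        exact h6.symm.trans h'
      have h7 : 2 ≡ 0 [MOD 2 * n] := Nat.ModEq.add_left_cancel' t h5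
      have h8 : 2 * n ∣ 2 := (Nat.modEq_zero_iff_dvd).1 h7
      have h9 := Nat.le_of_dvd (by norm_num) h8
      omega

theorem fib [Fintype Q] [DecidableEq Q] (hcard : Fintype.card Q = n) (hC : Cyc L n X κ)
    (hn : 2 ≤ n) (hM : MC n X κ) (a : Fin 3) (c : Q × Q → Q) (hc : ∀ t, c (X 0 t, X 1 t) = X a t)
    (q : Q) : {p | p ∈ (fun t => (X 0 t, X 1 t)) '' {t | t < 2 * n} ∧ c p = q}.ncard = 2 := by
  have h1 : {p | p ∈ (fun t => (X 0 t, X 1 t)) '' {t | t < 2 * n} ∧ c p = q} =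
      (fun t => (X 0 t, X 1 t)) ''
        (((Finset.range (2 * n)).filter fun t => X a t = q : Finset ℕ) : Set ℕ) := by
    ext p
    constructor
    · rintro ⟨⟨t, ht, rfl⟩, hp⟩
      refine ⟨t, ?_, rfl⟩
      rw [Finset.mem_coe, Finset.mem_filter, Finset.mem_range]
      exact ⟨ht, (hc t).symm.trans hp⟩
    · rintro ⟨t, ht, rfl⟩
      rw [Finset.mem_coe, Finset.mem_filter, Finset.mem_range] at ht
      exact ⟨⟨t, ht.1, rfl⟩, (hc t).trans ht.2⟩
  rw [h1, Set.ncard_image_of_injOn, Set.ncard_coe_finset]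
  · exact cnt hcard hC (by omega) hM a q
  · intro t ht t' ht' h
    rw [Finset.mem_coe, Finset.mem_filter, Finset.mem_range] at ht ht'
    have h2 := Prod.ext_iff.1 h
    exact inj hC hn hM t t' ht.1 ht'.1 h2.1 h2.2

theorem main : Pool.Agent.W295.NL.S_DM := by
  intro Q _ L hn hM
  classical
  haveI : Fintype Q := Fintype.ofFinite Q
  obtain ⟨_, _, X, κ, hC, _, hMC⟩ := hM
  have hcard : Fintype.card Q = Nat.card Q := Nat.card_eq_fintype_card.symm
  exact ⟨(fun t => (X 0 t, X 1 t)) '' {t | t < 2 * Nat.card Q},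
    fun r => fib hcard hC hn hMC 0 (fun p => p.1) (fun _ => rfl) r,
    fun r => fib hcard hC hn hMC 1 (fun p => p.2) (fun _ => rfl) r,
    fun r => fib hcard hC hn hMC 2 (fun p => L p.1 p.2) (fun t => (hC.sym t).symm) r⟩

end Pool.Agent.W280.NL.DM
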